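import Pool.Agent.R97.ArcMain

/-!
# MP_c53602_gt, Q1: the arc-length ratio at support points has upper limit at least `1/e`

Paper proof by helper761.
-/

set_option autoImplicit false

namespace Pool.Agent.Results.MP_c53602_gt.ArcLengthRatio

open Set Filter Topology

/-- the Euclidean plane -/
abbrev Plane := EuclideanSpace ℝ (Fin 2)

/-- the determinant of two vectors of the plane -/
def det (x y : Plane) : ℝ := x 0 * y 1 - x 1 * y 0

/-- `L(t)`: the length of the arc `γ|[a,t]` -/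
noncomputable def len (γ : ℝ → Plane) (a t : ℝ) : ℝ := (eVariationOn γ (Icc a t)).toReal

/-- `S(t)`: the parameters in `(a,t]` of the support points of the chord `[γ a, γ t]` -/
def supportSet (γ : ℝ → Plane) (a b t : ℝ) : Set ℝ :=
  {τ | τ ∈ Ioc a t ∧
    (γ a = γ t ∨ IsLocalExtrOn (fun s => det (γ t - γ a) (γ s)) (Icc a b) τ)}

/-- identification with the complex plane -/
def J (x : Plane) : ℂ := ⟨x 0, x 1⟩

theorem dist_J (x y : Plane) : dist (J x) (J y) = dist x y := by
  rw [EuclideanSpace.dist_eq, Complex.dist_eq_re_im, Fin.sum_univ_two]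
  simp only [J, Real.dist_eq, sq_abs]

theorem J_isometry : Isometry J := Isometry.of_dist_eq dist_J

theorem det_J (x y : Plane) : Pool.Agent.R97.Arc.det (J x) (J y) = det x y := rfl

theorem J_sub (x y : Plane) : J x - J y = J (x - y) := by
  apply Complex.ext <;> simp [J]

theorem eVar_J (γ : ℝ → Plane) (s : Set ℝ) :
    eVariationOn (fun t => J (γ t)) s = eVariationOn γ s := by
  unfold eVariationOn
  simp only [J_isometry.edist_eq]

theorem supp_J (γ : ℝ → Plane) (a b t : ℝ) :
    Pool.Agent.R97.Arc.supp (fun t => J (γ t)) a b t = supportSet γ a b t := by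
  unfold Pool.Agent.R97.Arc.supp supportSet
  simp only [J_sub, det_J, J_isometry.injective.eq_iff]

/-- Q1 is true: for every continuous rectifiable plane curve which is not constant near `a` the
upper limit is at least `1/e`; in fact for every `c < 1/e` there are `t` arbitrarily close to `a`
and `τ ∈ S(t)` with `L(τ) > c L(t)`. -/
theorem result (a b : ℝ) (hab : a < b) (γ : ℝ → Plane) (hc : ContinuousOn γ (Icc a b))
    (hV : eVariationOn γ (Icc a b) ≠ ⊤)
    (hn : ∀ d > 0, a + d ≤ b → ∃ t ∈ Icc a (a + d), γ t ≠ γ a) :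
    1 / Real.exp 1 ≤
      limsup (fun t => sSup ((fun τ => len γ a τ) '' supportSet γ a b t) / len γ a t) (𝓝[>] a) ∧
    ∀ c < 1 / Real.exp 1, ∃ᶠ t in 𝓝[>] a, ∃ τ ∈ supportSet γ a b t,
      c * len γ a t < len γ a τ := by
  have hn' : ∀ d > 0, ∃ t ∈ Icc a (a + d), t ≤ b ∧ J (γ t) ≠ J (γ a) := by
    intro d hd
    obtain ⟨t, ht, hne⟩ := hn (min d (b - a)) (lt_min hd (by linarith))
      (by linarith [min_le_right d (b - a)])
    refine ⟨t, ⟨ht.1, ?_⟩, ?_, fun h => hne (J_isometry.injective h)⟩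
    · linarith [ht.2, min_le_left d (b - a)]
    · linarith [ht.2, min_le_right d (b - a)]
  have hc' : ContinuousOn (fun t => J (γ t)) (Icc a b) :=
    J_isometry.continuous.comp_continuousOn hc
  have hV' : eVariationOn (fun t => J (γ t)) (Icc a b) ≠ ⊤ := by
    rw [eVar_J]
    exact hV
  have hlenV : ∀ t, Pool.Agent.R97.Arc.V (fun t => J (γ t)) a t = len γ a t := by
    intro t
    unfold Pool.Agent.R97.Arc.V len
    rw [eVar_J]
  have hlen0 : ∀ t, 0 ≤ len γ a t := fun t => ENNReal.toReal_nonneg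
  have hpos : ∀ t, a < t → t ≤ b → 0 < len γ a t := by
    intro t h1 h2
    rw [← hlenV]
    exact Pool.Agent.R97.Arc.V_pos hV' hn' h1 h2
  have hmono : ∀ x y, a ≤ x → x ≤ y → y ≤ b → len γ a x ≤ len γ a y := by
    intro x y h1 h2 h3
    rw [← hlenV, ← hlenV]
    exact Pool.Agent.R97.Arc.V_mono hV' h1 h2 h3
  have he : 1 / Real.exp 1 = Real.exp (-1) := by
    rw [Real.exp_neg, one_div]
  -- positive constants
  have hfreq : ∀ c, 0 < c → c < 1 / Real.exp 1 → ∃ᶠ t in 𝓝[>] a, t < b ∧
      ∃ τ ∈ supportSet γ a b t, c * len γ a t < len γ a τ := by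
    intro c h0 h1
    rw [frequently_iff]
    intro U hU
    obtain ⟨u, hu, hsub⟩ := (mem_nhdsGT_iff_exists_Ioo_subset' hab).mp hU
    have ht1 : a < min u b := lt_min hu hab
    obtain ⟨t, ht, τ, hτ, hlt⟩ := Pool.Agent.R97.Arc.frequently_ratio hc' hV' hn' h0
      (by rwa [← he]) ht1 (min_le_right u b)
    rw [hlenV, hlenV] at hlt
    rw [supp_J] at hτ
    exact ⟨t, hsub ⟨ht.1, ht.2.trans_le (min_le_left _ _)⟩, ht.2.trans_le (min_le_right _ _),
      τ, hτ, hlt⟩
  have hle : ∀ t, a < t → t < b → ∀ τ ∈ supportSet γ a b t, len γ a τ ≤ len γ a t := by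
    intro t _ h2 τ hτ
    exact hmono τ t hτ.1.1.le hτ.1.2 h2.le
  constructor
  · have hbdd : IsBoundedUnder (· ≤ ·) (𝓝[>] a)
        (fun t => sSup ((fun τ => len γ a τ) '' supportSet γ a b t) / len γ a t) := by
      refine ⟨1, ?_⟩
      rw [eventually_map]
      filter_upwards [Ioo_mem_nhdsGT hab] with t ht
      rw [div_le_one (hpos t ht.1 ht.2.le)]
      refine Real.sSup_le ?_ (hlen0 t)
      rintro _ ⟨τ, hτ, rfl⟩
      exact hle t ht.1 ht.2 τ hτ
    by_contra hcon
    push Not at hcon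
    obtain ⟨c, hc1, hc2⟩ := exists_between (max_lt hcon (by positivity : 0 < 1 / Real.exp 1))
    have h0 : 0 < c := lt_of_le_of_lt (le_max_right _ _) hc1
    have h1 := lt_of_le_of_lt (le_max_left _ _) hc1
    have h2 : c ≤ limsup (fun t => sSup ((fun τ => len γ a τ) '' supportSet γ a b t) / len γ a t)
        (𝓝[>] a) := by
      refine le_limsup_of_frequently_le ?_ hbdd
      refine ((hfreq c h0 hc2).and_eventually self_mem_nhdsWithin).mono ?_
      rintro t ⟨⟨htb, τ, hτ, hlt⟩, hta⟩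
      rw [le_div_iff₀ (hpos t hta htb.le)]
      refine hlt.le.trans (le_csSup ?_ ⟨τ, hτ, rfl⟩)
      refine ⟨len γ a t, ?_⟩
      rintro _ ⟨τ', hτ', rfl⟩
      exact hle t hta htb τ' hτ'
    linarith
  · intro c hc1
    have h0 : (0 : ℝ) < 1 / Real.exp 1 := by positivity
    obtain ⟨c', hc1', hc2'⟩ := exists_between (max_lt hc1 h0)
    have hc'0 : 0 < c' := lt_of_le_of_lt (le_max_right _ _) hc1'
    have hcc' : c < c' := lt_of_le_of_lt (le_max_left _ _) hc1'
    refine (hfreq c' hc'0 hc2').mono ?_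
    rintro t ⟨_, τ, hτ, hlt⟩
    exact ⟨τ, hτ, lt_of_le_of_lt (mul_le_mul_of_nonneg_right hcc'.le (hlen0 t)) hlt⟩

end Pool.Agent.Results.MP_c53602_gt.ArcLengthRatio
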